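import Pool.Agent.Zk82.KEq.Trig

set_option autoImplicit false
set_option linter.unusedSimpArgs false
set_option linter.unusedSectionVars false

/-!
# The polygons on trigonometric curves: distances, injectivity, linear independence
-/

namespace Pool.Agent.Zk82.KEq

open Finset

variable {n k : ℕ} [NeZero n] {κ : Type} [Fintype κ]

lemma base_dist (F : κ → ZMod n) (s : ZMod n) :
    ∃ c : ℝ, ∀ i, ∑ a, (base F i a - base F (i + s) a) ^ 2 = c := by
  refine ⟨∑ f, Complex.normSq (1 - e (F f * s)), fun i => ?_⟩
  rw [Fintype.sum_prod_type]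
  refine Finset.sum_congr rfl fun f _ => ?_
  rw [Fin.sum_univ_two]
  simp only [base, if_true, one_ne_zero, if_false]
  have h1 : e (F f * (i + s)) = e (F f * i) * e (F f * s) := by
    rw [← e_add]; congr 1; ring
  have h2 : Complex.normSq (e (F f * i)) = 1 := by
    have := e_conj (F f * i)
    have h3 : ((Complex.normSq (e (F f * i)) : ℝ) : ℂ) = 1 := by
      rw [← Complex.mul_conj, this, mul_comm, e_neg_mul]
    exact_mod_cast h3
  have h4 : Complex.normSq (e (F f * i) * (1 - e (F f * s))) =
      Complex.normSq (1 - e (F f * s)) := by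
    rw [Complex.normSq_mul, h2, one_mul]
  rw [← h4, h1]
  have h5 : e (F f * i) * (1 - e (F f * s)) = e (F f * i) - e (F f * i) * e (F f * s) := by ring
  rw [h5, Complex.normSq_apply]
  simp only [Complex.sub_re, Complex.sub_im]
  ring

lemma base_injective (F : κ → ZMod n) (hF : ∀ x : ZMod n, (∀ f, F f * x = 0) → x = 0) :
    Function.Injective (base F) := by
  intro i i' h
  rw [← sub_eq_zero]
  refine hF _ fun f => ?_
  have h0 := congrFun h (f, 0)
  have h1 := congrFun h (f, 1)
  simp only [base, if_true, one_ne_zero, if_false] at h0 h1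
  have := e_inj (Complex.ext h0 h1)
  rw [mul_sub, this, sub_self]

/-- the height function with frequency `m₀` -/
noncomputable def hgt (m₀ : ZMod n) : ZMod n → ℝ := fun i => (e (m₀ * i)).re

lemma re_e (a : ZMod n) : (((e a).re : ℝ) : ℂ) = (e a + e (-a)) / 2 := by
  rw [← e_conj, Complex.add_conj]; push_cast; ring

lemma im_e (a : ZMod n) : (((e a).im : ℝ) : ℂ) = (e a - e (-a)) / (2 * Complex.I) := by
  rw [← e_conj, Complex.sub_conj]
  field_simp
  push_cast
  ring

lemma sum_proj (a μ : ZMod n) : ∑ i : ZMod n, e (a * i) * e (-(μ * i)) =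
    if a = μ then (n : ℂ) else 0 := by
  have : ∀ i : ZMod n, e (a * i) * e (-(μ * i)) = e (i * (a - μ)) := by
    intro i; rw [← e_add]; congr 1; ring
  simp_rw [this, sum_e, sub_eq_zero]

theorem li_base (F : κ → ZMod n) (hinj : Function.Injective F) (h0 : ∀ f, F f ≠ 0)
    (hneg : ∀ f g, F f ≠ -F g) (m₀ : ZMod n) (hm : m₀ ≠ 0) (hm1 : ∀ f, m₀ ≠ F f)
    (hm2 : ∀ f, m₀ ≠ -F f) : LinearIndependent ℝ (fam (base F) (hgt m₀)) := by
  classical
  rw [Fintype.linearIndependent_iff]
  intro g hg
  have hn : (n : ℂ) ≠ 0 := Nat.cast_ne_zero.2 (NeZero.ne n)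
  have hval : ∀ i : ZMod n, g none + g (some none) * (e (m₀ * i)).re +
      ∑ f, (g (some (some (f, 0))) * (e (F f * i)).re +
        g (some (some (f, 1))) * (e (F f * i)).im) = 0 := by
    intro i
    have := congrFun hg i
    rw [Finset.sum_apply, Fintype.sum_option, Fintype.sum_option, Fintype.sum_prod_type] at this
    simp only [Fin.sum_univ_two, fam, hgt, base, Pi.smul_apply, smul_eq_mul, if_true, one_ne_zero,
      if_false, mul_one, Pi.zero_apply] at this
    linarith
  have hC : ∀ i : ZMod n, (g none : ℂ) + g (some none) * ((e (m₀ * i) + e (-(m₀ * i))) / 2) +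
      ∑ f, ((g (some (some (f, 0))) : ℂ) * ((e (F f * i) + e (-(F f * i))) / 2) +
        g (some (some (f, 1))) * ((e (F f * i) - e (-(F f * i))) / (2 * Complex.I))) = 0 := by
    intro i
    have := congrArg (fun x : ℝ => (x : ℂ)) (hval i)
    push_cast at this
    simp only [re_e, im_e] at this
    exact this
  have key : ∀ μ : ZMod n, (g none : ℂ) * (if (0 : ZMod n) = μ then (n : ℂ) else 0) +
      g (some none) * (((if m₀ = μ then (n : ℂ) else 0) + (if -m₀ = μ then (n : ℂ) else 0)) / 2) +
      ∑ f, ((g (some (some (f, 0))) : ℂ) *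
          (((if F f = μ then (n : ℂ) else 0) + (if -F f = μ then (n : ℂ) else 0)) / 2) +
        g (some (some (f, 1))) * (((if F f = μ then (n : ℂ) else 0) -
          (if -F f = μ then (n : ℂ) else 0)) / (2 * Complex.I))) = 0 := by
    intro μ
    have h1 : ∑ i : ZMod n, ((g none : ℂ) + g (some none) * ((e (m₀ * i) + e (-(m₀ * i))) / 2) +
      ∑ f, ((g (some (some (f, 0))) : ℂ) * ((e (F f * i) + e (-(F f * i))) / 2) +
        g (some (some (f, 1))) * ((e (F f * i) - e (-(F f * i))) / (2 * Complex.I)))) *
        e (-(μ * i)) = 0 := by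
      simp only [hC, zero_mul, Finset.sum_const_zero]
    refine Eq.trans ?_ h1
    have q0 : (if (0 : ZMod n) = μ then (n : ℂ) else 0) = _ := (sum_proj 0 μ).symm
    have q1 : (if m₀ = μ then (n : ℂ) else 0) = _ := (sum_proj m₀ μ).symm
    have q2 : (if -m₀ = μ then (n : ℂ) else 0) = _ := (sum_proj (-m₀) μ).symm
    have q3 : ∀ f, (if F f = μ then (n : ℂ) else 0) = _ := fun f => (sum_proj (F f) μ).symm
    have q4 : ∀ f, (if -F f = μ then (n : ℂ) else 0) = _ := fun f => (sum_proj (-F f) μ).symm
    simp only [q0, q1, q2, q3, q4]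
    simp_rw [add_mul, Finset.sum_mul, Finset.sum_add_distrib]
    congr 1
    · congr 1
      · rw [Finset.mul_sum]
        refine Finset.sum_congr rfl fun i _ => ?_
        rw [zero_mul, e_zero, one_mul]
      · rw [← Finset.sum_add_distrib, Finset.sum_div, Finset.mul_sum]
        refine Finset.sum_congr rfl fun i _ => ?_
        rw [neg_mul]; ring
    · rw [Finset.sum_comm, ← Finset.sum_add_distrib]
      refine Finset.sum_congr rfl fun f _ => ?_
      rw [← Finset.sum_add_distrib, ← Finset.sum_sub_distrib, Finset.sum_div, Finset.sum_div,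
        Finset.mul_sum, Finset.mul_sum, ← Finset.sum_add_distrib]
      refine Finset.sum_congr rfl fun i _ => ?_
      simp only [neg_mul]; ring
  have hnone : g none = 0 := by
    have := key 0
    simp only [if_true, hm, neg_eq_zero, if_false, h0, add_zero, zero_div, mul_zero, sub_self,
      Finset.sum_const_zero] at this
    have := (mul_eq_zero.1 this).resolve_right hn
    exact_mod_cast this
  have hh : g (some none) = 0 := by
    have := key m₀
    have e1 : ∀ f, (F f = m₀) = False := fun f => eq_false fun h => hm1 f h.symm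
    have e2 : ∀ f, (-F f = m₀) = False := fun f => eq_false fun h => hm2 f h.symm
    simp only [if_true, e1, e2, if_false, add_zero, zero_div, mul_zero, sub_self,
      Finset.sum_const_zero, hnone, Complex.ofReal_zero, zero_mul, zero_add] at this
    rcases mul_eq_zero.1 this with h | h
    · exact_mod_cast h
    · exfalso
      split_ifs at h
      · apply hn
        linear_combination h
      · apply hn
        linear_combination 2 * h
  have hf : ∀ f, g (some (some (f, 0))) = 0 ∧ g (some (some (f, 1))) = 0 := by
    intro f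
    have := key (F f)
    have e1 : (m₀ = F f) = False := eq_false (hm1 f)
    have e2 : (-m₀ = F f) = False := eq_false fun h => hm2 f (by rw [← h, neg_neg])
    have e3 : ∀ f', (-F f' = F f) = False := fun f' => eq_false fun h => hneg f f' h.symm
    have e4 : ∀ f', (F f' = F f) = (f' = f) := fun f' => propext hinj.eq_iff
    simp only [hnone, hh, e3, e4, Complex.ofReal_zero, zero_mul, zero_add, if_false, add_zero,
      sub_zero] at this
    rw [Finset.sum_eq_single f] at this
    · simp only [if_true] at this
      have h2 : ((g (some (some (f, 0))) : ℂ) - g (some (some (f, 1))) * Complex.I) = 0 := by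
        have hI : Complex.I ≠ 0 := Complex.I_ne_zero
        have h3 : (n : ℂ) / 2 * ((g (some (some (f, 0))) : ℂ) -
            g (some (some (f, 1))) * Complex.I) = 0 := by
          rw [← this]
          field_simp
          linear_combination (-(g (some (some (f, 1))) : ℂ)) * Complex.I_sq
        rcases mul_eq_zero.1 h3 with h | h
        · exfalso; apply hn; linear_combination 2 * h
        · exact h
      have hre := congrArg Complex.re h2
      have him := congrArg Complex.im h2
      simp at hre him
      exact ⟨hre, him⟩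
    · intro b _ hb
      simp [hb]
    · simp
  intro o
  match o with
  | none => exact hnone
  | some none => exact hh
  | some (some (f, 0)) => exact (hf f).1
  | some (some (f, 1)) => exact (hf f).2

end Pool.Agent.Zk82.KEq
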