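import Pool.Agent.Zk82.KEq.Polygon

set_option autoImplicit false
set_option linter.unusedSimpArgs false
set_option linter.unusedSectionVars false

/-!
# The stresses vanish
-/

namespace Pool.Agent.Zk82.KEq

open Finset

variable {n k : ℕ} [NeZero n]

lemma dvd_cases {n x : ℤ} (hn : 0 < n) (h : n ∣ x) (h1 : x < 2 * n) (h2 : -(2 * n) < x) :
    x = 0 ∨ x = n ∨ x = -n := by
  obtain ⟨q, rfl⟩ := h
  have hq1 : q < 2 := by
    by_contra hq
    have : 2 ≤ q := by omega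
    nlinarith
  have hq2 : -2 < q := by
    by_contra hq
    have : q ≤ -2 := by omega
    nlinarith
  have : q = -1 ∨ q = 0 ∨ q = 1 := by omega
  rcases this with rfl | rfl | rfl
  · right; right; ring
  · left; ring
  · right; left; ring

lemma cast_ne {a b : ℤ} (h : ¬ (n : ℤ) ∣ (a - b)) : ((a : ℤ) : ZMod n) ≠ (b : ZMod n) := by
  intro he
  apply h
  rw [← ZMod.intCast_zmod_eq_zero_iff_dvd]
  push_cast
  rw [he, sub_self]

theorem coef_zero_int (A : Finset ℤ) (hA : ∀ t ∈ A, -(k : ℤ) ≤ t ∧ t ≤ k)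
    (hcard : A.card + 1 = 2 * k) (hn : 2 * k < n) (L : Fin k → ℂ) (m : ZMod n) (M : ℤ)
    (hM : (M : ZMod n) = m) (hrel : ∀ t ∈ A, Rel L m (t : ZMod n)) (b₁ b₂ : ℤ) (hb₁ : b₁ ∈ A)
    (hb₂ : b₂ ∈ A) (hb : b₁ ≠ b₂) (h₁ : ∀ t ∈ A, ¬ (n : ℤ) ∣ t + M + b₁)
    (h₂ : ∀ t ∈ A, ¬ (n : ℤ) ∣ t + M + b₂) : ∀ j, L j = 0 := by
  classical
  have hcast : ∀ a ∈ A, ∀ b ∈ A, ((a : ℤ) : ZMod n) = (b : ZMod n) → a = b := by
    intro a ha b hb' he
    by_contra hne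
    refine cast_ne (n := n) ?_ he
    intro hd
    obtain ⟨h1, h2⟩ := hA a ha
    obtain ⟨h3, h4⟩ := hA b hb'
    rcases dvd_cases (by omega) hd (by omega) (by omega) with h | h | h <;> omega
  set G : Finset (ZMod n) := A.image (fun t : ℤ => (t : ZMod n)) with hG
  have hGc : G.card = A.card := Finset.card_image_of_injOn fun a ha b hb' he => hcast a ha b hb' he
  have hn1 : (-m - (b₁ : ZMod n)) ∉ G := by
    intro hmem
    obtain ⟨t, ht, he⟩ := Finset.mem_image.1 hmem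
    apply h₁ t ht
    rw [← ZMod.intCast_zmod_eq_zero_iff_dvd]
    push_cast
    rw [hM, he]; ring
  have hn2 : (-m - (b₂ : ZMod n)) ∉ G := by
    intro hmem
    obtain ⟨t, ht, he⟩ := Finset.mem_image.1 hmem
    apply h₂ t ht
    rw [← ZMod.intCast_zmod_eq_zero_iff_dvd]
    push_cast
    rw [hM, he]; ring
  have hn3 : (-m - (b₁ : ZMod n)) ≠ (-m - (b₂ : ZMod n)) := by
    intro he
    exact hb (hcast b₁ hb₁ b₂ hb₂ (by linear_combination -he))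
  refine coef_zero L m (insert (-m - (b₁ : ZMod n)) (insert (-m - (b₂ : ZMod n)) G)) ?_ ?_
  · rw [Finset.card_insert_of_notMem, Finset.card_insert_of_notMem hn2, hGc]
    · omega
    · rw [Finset.mem_insert, not_or]
      exact ⟨hn3, hn1⟩
  · intro z hz
    rcases Finset.mem_insert.1 hz with rfl | hz
    · exact (hrel b₁ hb₁).symm
    rcases Finset.mem_insert.1 hz with rfl | hz
    · exact (hrel b₂ hb₂).symm
    obtain ⟨t, ht, rfl⟩ := Finset.mem_image.1 hz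
    exact hrel t ht

lemma FT_zero {F : Fin (k - 1) → ZMod n} {l : Fin k → ZMod n → ℝ} (hl : Stress k (base F) l)
    (j : Fin k) : FT (l j) 0 = 0 := by
  unfold FT
  have : ∀ p : ZMod n, (l j p : ℂ) * e (-(0 * p)) = (l j p : ℂ) := by
    intro p; rw [zero_mul, neg_zero, e_zero, mul_one]
  simp_rw [this]
  rw [← Complex.ofReal_sum, hl.1 j, Complex.ofReal_zero]

/-- The frequencies `2, …, k`. -/
def F3 (n k : ℕ) : Fin (k - 1) → ZMod n := fun f => ((f.val + 2 : ℕ) : ZMod n)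

lemma valMinAbs_bound (m : ZMod n) (hodd : n % 2 = 1) :
    -(n : ℤ) ≤ 2 * m.valMinAbs - 1 ∧ 2 * m.valMinAbs + 1 ≤ n := by
  have := ZMod.valMinAbs_mem_Ioc m
  rw [Set.mem_Ioc] at this
  omega

theorem witness (N k M : ℤ) (hk : 3 ≤ k) (hN : k + 1 ≤ N) (hM1 : 1 ≤ M) (hM2 : M ≤ N) :
    ∃ b₁ b₂ : ℤ, (-k ≤ b₁ ∧ b₁ ≤ k ∧ b₁ ≠ 1 ∧ b₁ ≠ -1) ∧ (-k ≤ b₂ ∧ b₂ ≤ k ∧ b₂ ≠ 1 ∧ b₂ ≠ -1) ∧
      b₁ ≠ b₂ ∧ ∀ t : ℤ, -k ≤ t → t ≤ k → t ≠ 1 → t ≠ -1 →
        (t + M + b₁ ≠ 0 ∧ t + M + b₁ ≠ 2 * N + 1 ∧ t + M + b₁ ≠ -(2 * N + 1)) ∧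
        (t + M + b₂ ≠ 0 ∧ t + M + b₂ ≠ 2 * N + 1 ∧ t + M + b₂ ≠ -(2 * N + 1)) := by
  by_cases h1 : M = 1
  · exact ⟨0, -2, by omega, by omega, by omega, fun t _ _ _ _ => by omega⟩
  by_cases h2 : M = 2
  · exact ⟨k, k - 1, by omega, by omega, by omega, fun t _ _ _ _ => by omega⟩
  by_cases h3 : M = k
  · exact ⟨2, 1 - k, by omega, by omega, by omega, fun t _ _ _ _ => by omega⟩
  by_cases h4 : M = k + 1
  · exact ⟨0, -k, by omega, by omega, by omega, fun t _ _ _ _ => by omega⟩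
  by_cases h5 : M = k + 2
  · exact ⟨0, 2, by omega, by omega, by omega, fun t _ _ _ _ => by omega⟩
  by_cases h6 : M = k + 3
  · exact ⟨0, -2, by omega, by omega, by omega, fun t _ _ _ _ => by omega⟩
  by_cases h7 : M ≤ 2 * k + 1
  · exact ⟨k + 1 - M, k + 2 - M, by omega, by omega, by omega, fun t _ _ _ _ => by omega⟩
  · exact ⟨0, 2, by omega, by omega, by omega, fun t _ _ _ _ => by omega⟩

theorem witness' (N k M : ℤ) (hk : 3 ≤ k) (hN : k + 1 ≤ N) (hM0 : M ≠ 0) (hM1 : -N ≤ M)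
    (hM2 : M ≤ N) :
    ∃ b₁ b₂ : ℤ, (-k ≤ b₁ ∧ b₁ ≤ k ∧ b₁ ≠ 1 ∧ b₁ ≠ -1) ∧ (-k ≤ b₂ ∧ b₂ ≤ k ∧ b₂ ≠ 1 ∧ b₂ ≠ -1) ∧
      b₁ ≠ b₂ ∧ ∀ t : ℤ, -k ≤ t → t ≤ k → t ≠ 1 → t ≠ -1 →
        (t + M + b₁ ≠ 0 ∧ t + M + b₁ ≠ 2 * N + 1 ∧ t + M + b₁ ≠ -(2 * N + 1)) ∧
        (t + M + b₂ ≠ 0 ∧ t + M + b₂ ≠ 2 * N + 1 ∧ t + M + b₂ ≠ -(2 * N + 1)) := by
  rcases lt_or_gt_of_ne hM0 with h | h
  · obtain ⟨b₁, b₂, h1, h2, h3, h4⟩ := witness N k (-M) hk hN (by omega) (by omega)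
    refine ⟨-b₁, -b₂, by omega, by omega, by omega, fun t ht1 ht2 ht3 ht4 => ?_⟩
    have := h4 (-t) (by omega) (by omega) (by omega) (by omega)
    omega
  · exact witness N k M hk hN (by omega) hM2

theorem stress_zero3 (hk : 3 ≤ k) (hn : 2 * k + 1 < n) (hodd : n % 2 = 1)
    (l : Fin k → ZMod n → ℝ) (hl : Stress k (base (F3 n k)) l) : l = 0 := by
  funext j
  apply FT_inj
  intro m
  by_cases hm : m = 0
  · rw [hm]; exact FT_zero hl j
  obtain ⟨hb1, hb2⟩ := valMinAbs_bound m hodd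
  have hM0 : m.valMinAbs ≠ 0 := by
    intro h
    apply hm
    rwa [ZMod.valMinAbs_eq_zero] at h
  obtain ⟨b₁, b₂, hA1, hA2, hne, hw⟩ := witness' ((n : ℤ) / 2) k m.valMinAbs (by omega) (by omega)
    hM0 (by omega) (by omega)
  have hmem : ∀ t : ℤ, t ∈ ((Finset.Icc (-(k : ℤ)) k).erase 1).erase (-1) ↔
      (-(k : ℤ) ≤ t ∧ t ≤ k ∧ t ≠ 1 ∧ t ≠ -1) := by
    intro t
    rw [Finset.mem_erase, Finset.mem_erase, Finset.mem_Icc]
    omega
  refine coef_zero_int (((Finset.Icc (-(k : ℤ)) k).erase 1).erase (-1)) ?_ ?_ (by omega)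
    (fun j => FT (l j) m) m m.valMinAbs (ZMod.coe_valMinAbs m) ?_ b₁ b₂ ((hmem _).2 hA1)
    ((hmem _).2 hA2) hne ?_ ?_ j
  · intro t ht
    have := (hmem t).1 ht
    omega
  · rw [Finset.card_erase_of_mem, Finset.card_erase_of_mem, Int.card_Icc]
    · omega
    · rw [Finset.mem_Icc]; omega
    · rw [Finset.mem_erase, Finset.mem_Icc]; omega
  · intro t ht
    obtain ⟨h1, h2, h3, h4⟩ := (hmem t).1 ht
    rcases lt_trichotomy t 0 with h | h | h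
    · have hf : (-t - 2).toNat < k - 1 := by omega
      have := rel_neg (F3 n k) hl ⟨(-t - 2).toNat, hf⟩ m
      have e1 : -F3 n k ⟨(-t - 2).toNat, hf⟩ = ((t : ℤ) : ZMod n) := by
        simp only [F3]
        have : (((-t - 2).toNat + 2 : ℕ) : ℤ) = -t := by omega
        rw [← Int.cast_natCast, this]
        push_cast; ring
      rwa [e1] at this
    · subst h
      rw [Int.cast_zero]
      exact rel_zero _ _
    · have hf : (t - 2).toNat < k - 1 := by omega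
      have := rel_pos (F3 n k) hl ⟨(t - 2).toNat, hf⟩ m
      have e1 : F3 n k ⟨(t - 2).toNat, hf⟩ = ((t : ℤ) : ZMod n) := by
        simp only [F3]
        have : (((t - 2).toNat + 2 : ℕ) : ℤ) = t := by omega
        rw [← Int.cast_natCast, this]
      rwa [e1] at this
  · intro t ht hd
    have ht' := (hmem t).1 ht
    have := (hw t ht'.1 ht'.2.1 ht'.2.2.1 ht'.2.2.2).1
    rcases dvd_cases (by omega) hd (by omega) (by omega) with h | h | h <;> omega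
  · intro t ht hd
    have ht' := (hmem t).1 ht
    have := (hw t ht'.1 ht'.2.1 ht'.2.2.1 ht'.2.2.2).2
    rcases dvd_cases (by omega) hd (by omega) (by omega) with h | h | h <;> omega

end Pool.Agent.Zk82.KEq
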