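import Mathlib

set_option autoImplicit false
set_option linter.unusedSimpArgs false

/-!
# Deforming a `k`-equilateral polygon into one more dimension

A `k`-equilateral `n`-gon `X` is deformed to `(X + ε² y, ε h)`.
-/

namespace Pool.Agent.Zk82.KEq

open Filter Topology Finset

/-- the cyclic step `j + 1` -/
def st (n : ℕ) {k : ℕ} (j : Fin k) : ZMod n := ((j.val + 1 : ℕ) : ZMod n)

variable {n k : ℕ} [NeZero n] {ι : Type} [Fintype ι]

/-- The parameter space: planar deformation, heights, constants, `ε`. -/
abbrev Dom (n k : ℕ) (ι : Type) : Type :=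
  (ZMod n → ι → ℝ) × (ZMod n → ℝ) × (Fin k → ℝ) × ℝ

/-- The target space. -/
abbrev Tar (n k : ℕ) : Type := (Fin k → ZMod n → ℝ) × ℝ

/-- An equilibrium stress of `X` (on the pairs at cyclic distance at most `k`) with vanishing sums. -/
def Stress (k : ℕ) (X : ZMod n → ι → ℝ) (l : Fin k → ZMod n → ℝ) : Prop :=
  (∀ j, ∑ i, l j i = 0) ∧ ∀ p a, ∑ j : Fin k, (l j p * (X p a - X (p + st n j) a) +
    l j (p - st n j) * (X p a - X (p - st n j) a)) = 0

/-- The deformation equations. -/
def psi (X : ZMod n → ι → ℝ) (w : Dom n k ι) : Tar n k :=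
  (fun j i => ∑ a, 2 * (X i a - X (i + st n j) a) * (w.1 i a - w.1 (i + st n j) a) +
      (w.2.1 i - w.2.1 (i + st n j)) ^ 2 +
      w.2.2.2 ^ 2 * ∑ a, (w.1 i a - w.1 (i + st n j) a) ^ 2 - w.2.2.1 j,
    w.2.2.2)

/-- The linearisation at a point with heights `h` and `ε = 0`. -/
def lin (X : ZMod n → ι → ℝ) (h : ZMod n → ℝ) : Dom n k ι →ₗ[ℝ] Tar n k where
  toFun v := (fun j i => ∑ a, 2 * (X i a - X (i + st n j) a) * (v.1 i a - v.1 (i + st n j) a) +
      2 * (h i - h (i + st n j)) * (v.2.1 i - v.2.1 (i + st n j)) - v.2.2.1 j,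
    v.2.2.2)
  map_add' v w := by
    ext j i
    · simp only [Prod.fst_add, Prod.snd_add, Pi.add_apply]
      have : ∑ a, 2 * (X i a - X (i + st n j) a) *
          (v.1 i a + w.1 i a - (v.1 (i + st n j) a + w.1 (i + st n j) a)) =
          ∑ a, 2 * (X i a - X (i + st n j) a) * (v.1 i a - v.1 (i + st n j) a) +
          ∑ a, 2 * (X i a - X (i + st n j) a) * (w.1 i a - w.1 (i + st n j) a) := by
        rw [← Finset.sum_add_distrib]
        exact Finset.sum_congr rfl fun a _ => by ring
      rw [this]; ring
    · rfl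
  map_smul' c v := by
    ext j i
    · simp only [Prod.smul_fst, Prod.smul_snd, Pi.smul_apply, smul_eq_mul, RingHom.id_apply]
      have : ∑ a, 2 * (X i a - X (i + st n j) a) *
          (c * v.1 i a - c * v.1 (i + st n j) a) =
          c * ∑ a, 2 * (X i a - X (i + st n j) a) * (v.1 i a - v.1 (i + st n j) a) := by
        rw [Finset.mul_sum]
        exact Finset.sum_congr rfl fun a _ => by ring
      rw [this]; ring
    · rfl

/-- coordinate functionals on the parameter space -/
noncomputable def mF (i i' : ZMod n) (a : ι) : Dom n k ι →L[ℝ] ℝ :=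
  LinearMap.toContinuousLinearMap
    { toFun := fun w => w.1 i a - w.1 i' a
      map_add' := fun v w => by simp only [Prod.fst_add, Pi.add_apply]; ring
      map_smul' := fun c v => by
        simp only [Prod.smul_fst, Pi.smul_apply, smul_eq_mul, RingHom.id_apply]; ring }

noncomputable def hF (i i' : ZMod n) : Dom n k ι →L[ℝ] ℝ :=
  LinearMap.toContinuousLinearMap
    { toFun := fun w => w.2.1 i - w.2.1 i'
      map_add' := fun v w => by simp only [Prod.fst_add, Prod.snd_add, Pi.add_apply]; ring
      map_smul' := fun c v => by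
        simp only [Prod.smul_fst, Prod.smul_snd, Pi.smul_apply, smul_eq_mul, RingHom.id_apply]
        ring }

noncomputable def cF (j : Fin k) : Dom n k ι →L[ℝ] ℝ :=
  LinearMap.toContinuousLinearMap
    { toFun := fun w => w.2.2.1 j
      map_add' := fun _ _ => rfl
      map_smul' := fun _ _ => rfl }

noncomputable def eF : Dom n k ι →L[ℝ] ℝ :=
  LinearMap.toContinuousLinearMap
    { toFun := fun w => w.2.2.2
      map_add' := fun _ _ => rfl
      map_smul' := fun _ _ => rfl }

theorem psi_strict (X : ZMod n → ι → ℝ) (y : ZMod n → ι → ℝ) (h : ZMod n → ℝ) (c : Fin k → ℝ) :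
    HasStrictFDerivAt (psi (k := k) X)
      (LinearMap.toContinuousLinearMap (lin (k := k) X h)) (y, h, c, 0) := by
  have key : ∀ (j : Fin k) (i : ZMod n), HasStrictFDerivAt
      (fun w : Dom n k ι => ∑ a, 2 * (X i a - X (i + st n j) a) * mF i (i + st n j) a w +
      (hF i (i + st n j) w) ^ 2 +
      (eF w) ^ 2 * ∑ a, (mF i (i + st n j) a w) ^ 2 - cF j w)
      ((ContinuousLinearMap.proj i).comp ((ContinuousLinearMap.proj (R := ℝ)
        (φ := fun _ : Fin k => ZMod n → ℝ) j).comp
        ((ContinuousLinearMap.fst ℝ _ _).comp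
          (LinearMap.toContinuousLinearMap (lin (k := k) X h))))) (y, h, c, 0) := by
    intro j i
    have h1 : HasStrictFDerivAt (fun w : Dom n k ι => ∑ a, 2 * (X i a - X (i + st n j) a) *
        mF i (i + st n j) a w) (∑ a, (2 * (X i a - X (i + st n j) a)) • mF i (i + st n j) a)
        (y, h, c, 0) := by
      refine HasStrictFDerivAt.fun_sum fun a _ => ?_
      exact (mF i (i + st n j) a).hasStrictFDerivAt.const_mul _
    have h2 := (hF (k := k) (ι := ι) i (i + st n j)).hasStrictFDerivAt (x := (y, h, c, 0)) |>.pow 2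
    have h3 := (eF (n := n) (k := k) (ι := ι)).hasStrictFDerivAt (x := (y, h, c, 0)) |>.pow 2
    have h4 : HasStrictFDerivAt (fun w : Dom n k ι => ∑ a, (mF i (i + st n j) a w) ^ 2) _
        (y, h, c, 0) :=
      HasStrictFDerivAt.fun_sum fun a _ =>
        (mF (k := k) i (i + st n j) a).hasStrictFDerivAt (x := (y, h, c, 0)) |>.pow 2
    have h5 := (cF (n := n) (ι := ι) j).hasStrictFDerivAt (x := (y, h, c, 0))
    refine (((h1.add h2).add (h3.mul h4)).sub h5).congr_fderiv ?_
    refine ContinuousLinearMap.ext fun v => ?_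
    have e0 : (eF (n := n) (k := k) (ι := ι)) (y, h, c, 0) = 0 := rfl
    have e1 : (hF (k := k) (ι := ι) i (i + st n j)) (y, h, c, 0) = h i - h (i + st n j) := rfl
    simp only [e0, e1]
    simp [lin, mF, hF, cF]
  have hp := hasStrictFDerivAt_pi.2 fun j => hasStrictFDerivAt_pi.2 fun i => key j i
  have h5 := (eF (n := n) (k := k) (ι := ι)).hasStrictFDerivAt (x := (y, h, c, 0))
  have hfin := hp.prodMk h5
  refine (hfin.congr_fderiv ?_)
  refine ContinuousLinearMap.ext fun v => ?_
  rfl

theorem sum_step (s p : ZMod n) (u : ZMod n → ℝ) :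
    ∑ i, u i * ((Pi.single p 1 : ZMod n → ℝ) i - (Pi.single p 1 : ZMod n → ℝ) (i + s)) =
      u p - u (p - s) := by
  have h1 : ∑ i, u i * (Pi.single p 1 : ZMod n → ℝ) i = u p := by
    rw [Finset.sum_eq_single p]
    · simp
    · intro b _ hb; simp [Pi.single_apply, hb]
    · simp
  have h2 : ∑ i, u i * (Pi.single p 1 : ZMod n → ℝ) (i + s) = u (p - s) := by
    rw [Finset.sum_eq_single (p - s)]
    · simp
    · intro b _ hb
      have : b + s ≠ p := fun h => hb (by rw [← h]; ring)
      simp [Pi.single_apply, this]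
    · simp
  simp only [mul_sub, Finset.sum_sub_distrib, h1, h2]

theorem functional (X : ZMod n → ι → ℝ) (h : ZMod n → ℝ) (f : Module.Dual ℝ (Tar n k))
    (hf : ∀ v, f (lin X h v) = 0) :
    ∃ l : Fin k → ZMod n → ℝ, (∀ t, f t = ∑ j, ∑ i, l j i * t.1 j i) ∧ Stress k X l ∧
      ∀ p, ∑ j : Fin k, (l j p * (h p - h (p + st n j)) +
        l j (p - st n j) * (h p - h (p - st n j))) = 0 := by
  classical
  set l : Fin k → ZMod n → ℝ := fun j i => f (Pi.single j (Pi.single i 1), 0) with hl
  have hmu : f (0, 1) = 0 := by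
    have := hf (0, 0, 0, 1)
    have e : lin (k := k) X h (0, 0, 0, 1) = (0, 1) := by
      ext j i
      · simp [lin]
      · simp [lin]
    rwa [e] at this
  have hexp : ∀ t, f t = ∑ j, ∑ i, l j i * t.1 j i := by
    intro t
    have e1 : t = ∑ j, ∑ i, t.1 j i • ((Pi.single j (Pi.single i (1 : ℝ)), 0) : Tar n k) +
        t.2 • ((0, 1) : Tar n k) := by
      refine Prod.ext ?_ ?_
      · simp only [Prod.fst_add, Prod.smul_fst, smul_zero, add_zero, Prod.fst_sum]
        ext j' i'
        simp only [Finset.sum_apply, Pi.smul_apply, smul_eq_mul]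
        rw [Finset.sum_eq_single j', Finset.sum_eq_single i']
        · simp
        · intro b _ hb
          simp [Pi.single_apply, hb.symm]
        · simp
        · intro b _ hb
          refine Finset.sum_eq_zero fun i _ => ?_
          simp [Pi.single_apply, hb.symm]
        · simp
      · simp only [Prod.snd_add, Prod.smul_snd, smul_eq_mul, mul_one, Prod.snd_sum]
        simp
    conv_lhs => rw [e1]
    rw [map_add, map_smul, hmu, smul_zero, add_zero, map_sum]
    refine Finset.sum_congr rfl fun j _ => ?_
    rw [map_sum]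
    refine Finset.sum_congr rfl fun i _ => ?_
    rw [map_smul, smul_eq_mul, hl, mul_comm]
  refine ⟨l, hexp, ⟨?_, ?_⟩, ?_⟩
  · intro j
    have := hf (0, 0, Pi.single j 1, 0)
    rw [hexp] at this
    simp only [lin, LinearMap.coe_mk, AddHom.coe_mk, Pi.zero_apply, sub_self, mul_zero,
      Finset.sum_const_zero, zero_add, add_zero, zero_sub] at this
    rw [Finset.sum_eq_single j] at this
    · simp only [Pi.single_eq_same, mul_neg, mul_one, Finset.sum_neg_distrib, neg_eq_zero] at this
      exact this
    · intro b _ hb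
      refine Finset.sum_eq_zero fun i _ => ?_
      simp [Pi.single_apply, hb]
    · simp
  · intro p a
    have := hf (Pi.single p (Pi.single a 1), 0, 0, 0)
    rw [hexp] at this
    simp only [lin, LinearMap.coe_mk, AddHom.coe_mk, Pi.zero_apply, sub_self, mul_zero,
      add_zero, sub_zero] at this
    have e : ∀ (j : Fin k) (i : ZMod n), l j i * ∑ b, 2 * (X i b - X (i + st n j) b) *
        ((Pi.single p (Pi.single a 1) : ZMod n → ι → ℝ) i b -
          (Pi.single p (Pi.single a 1) : ZMod n → ι → ℝ) (i + st n j) b) =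
        (l j i * 2 * (X i a - X (i + st n j) a)) * ((Pi.single p 1 : ZMod n → ℝ) i -
          (Pi.single p 1 : ZMod n → ℝ) (i + st n j)) := by
      intro j i
      rw [Finset.sum_eq_single a]
      · have : ∀ q : ZMod n, (Pi.single p (Pi.single a 1) : ZMod n → ι → ℝ) q a =
            (Pi.single p 1 : ZMod n → ℝ) q := by
          intro q
          by_cases hq : q = p
          · subst hq; simp
          · simp [Pi.single_apply, hq]
        rw [this, this]; ring
      · intro b _ hb
        have : ∀ q : ZMod n, (Pi.single p (Pi.single a 1) : ZMod n → ι → ℝ) q b = 0 := by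
          intro q
          by_cases hq : q = p
          · subst hq; simp [Pi.single_apply, hb]
          · simp [Pi.single_apply, hq]
        rw [this, this]; ring
      · simp
    simp only [e, sum_step] at this
    have h2 : ∑ j : Fin k, (l j p * 2 * (X p a - X (p + st n j) a) -
        l j (p - st n j) * 2 * (X (p - st n j) a - X (p - st n j + st n j) a)) =
        2 * ∑ j : Fin k, (l j p * (X p a - X (p + st n j) a) +
          l j (p - st n j) * (X p a - X (p - st n j) a)) := by
      rw [Finset.mul_sum]
      refine Finset.sum_congr rfl fun j _ => ?_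
      rw [sub_add_cancel]; ring
    rw [h2] at this
    simpa using this
  · intro p
    have := hf (0, Pi.single p 1, 0, 0)
    rw [hexp] at this
    simp only [lin, LinearMap.coe_mk, AddHom.coe_mk, Pi.zero_apply, sub_self, mul_zero,
      Finset.sum_const_zero, zero_add, sub_zero] at this
    have e : ∀ (j : Fin k) (i : ZMod n), l j i * (2 * (h i - h (i + st n j)) *
        ((Pi.single p 1 : ZMod n → ℝ) i - (Pi.single p 1 : ZMod n → ℝ) (i + st n j))) =
        (l j i * 2 * (h i - h (i + st n j))) * ((Pi.single p 1 : ZMod n → ℝ) i -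
          (Pi.single p 1 : ZMod n → ℝ) (i + st n j)) := by
      intro j i; ring
    simp only [e, sum_step] at this
    have h2 : ∑ j : Fin k, (l j p * 2 * (h p - h (p + st n j)) -
        l j (p - st n j) * 2 * (h (p - st n j) - h (p - st n j + st n j))) =
        2 * ∑ j : Fin k, (l j p * (h p - h (p + st n j)) +
          l j (p - st n j) * (h p - h (p - st n j))) := by
      rw [Finset.mul_sum]
      refine Finset.sum_congr rfl fun j _ => ?_
      rw [sub_add_cancel]; ring
    rw [h2] at this
    simpa using this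

theorem lin_range (X : ZMod n → ι → ℝ) (h : ZMod n → ℝ)
    (hc : ∀ l : Fin k → ZMod n → ℝ, Stress k X l →
      (∀ p, ∑ j : Fin k, (l j p * (h p - h (p + st n j)) +
        l j (p - st n j) * (h p - h (p - st n j))) = 0) → l = 0) :
    LinearMap.range (lin (k := k) X h) = ⊤ := by
  by_contra hne
  obtain ⟨f, hf0, hf⟩ := Submodule.exists_dual_map_eq_bot_of_lt_top (lt_top_iff_ne_top.2 hne)
    inferInstance
  have hf' : ∀ v, f (lin X h v) = 0 := by
    intro v
    have : f (lin X h v) ∈ (LinearMap.range (lin (k := k) X h)).map f :=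
      Submodule.mem_map_of_mem (LinearMap.mem_range_self _ v)
    rw [hf] at this
    simpa using this
  obtain ⟨l, h1, h2, h3⟩ := functional X h f hf'
  have := hc l h2 h3
  subst this
  apply hf0
  refine LinearMap.ext fun t => ?_
  rw [h1]; simp

theorem exists_start (X : ZMod n → ι → ℝ) (h : ZMod n → ℝ)
    (hb : ∀ l : Fin k → ZMod n → ℝ, Stress k X l →
      ∑ j : Fin k, ∑ i, l j i * (h i - h (i + st n j)) ^ 2 = 0) :
    ∃ (y : ZMod n → ι → ℝ) (c : Fin k → ℝ), psi X (y, h, c, 0) = 0 := by
  by_contra hne
  set q : Tar n k := (fun j i => -(h i - h (i + st n j)) ^ 2, 0) with hq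
  have hnot : q ∉ LinearMap.range (lin (k := k) X 0) := by
    rintro ⟨v, hv⟩
    apply hne
    refine ⟨v.1, v.2.2.1, ?_⟩
    have h1 := congrArg Prod.fst hv
    ext j i
    · have h2 := congrFun (congrFun h1 j) i
      simp only [lin, LinearMap.coe_mk, AddHom.coe_mk, Pi.zero_apply, sub_self, mul_zero,
        zero_mul, add_zero, hq] at h2
      simp only [psi, Prod.fst_zero, Pi.zero_apply]
      have : ∑ a, 2 * (X i a - X (i + st n j) a) * (v.1 i a - v.1 (i + st n j) a) =
          -(h i - h (i + st n j)) ^ 2 + v.2.2.1 j := by linarith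
      rw [this]; ring
    · rfl
  obtain ⟨f, hf0, hf⟩ := Submodule.exists_dual_map_eq_bot_of_notMem hnot inferInstance
  have hf' : ∀ v, f (lin X 0 v) = 0 := by
    intro v
    have : f (lin X 0 v) ∈ (LinearMap.range (lin (k := k) X 0)).map f :=
      Submodule.mem_map_of_mem (LinearMap.mem_range_self _ v)
    rw [hf] at this
    simpa using this
  obtain ⟨l, h1, h2, -⟩ := functional X 0 f hf'
  apply hf0
  rw [h1]
  have := hb l h2
  simp only [hq, mul_neg, Finset.sum_neg_distrib, this, neg_zero]

/-- The functions `1`, `H` and the coordinates of `Y` on the vertex set. -/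
def fam (Y : ZMod n → ι → ℝ) (H : ZMod n → ℝ) : Option (Option ι) → ZMod n → ℝ
  | none => fun _ => 1
  | some none => H
  | some (some a) => fun i => Y i a

theorem deform (X : ZMod n → ι → ℝ) (h : ZMod n → ℝ)
    (base : ∀ j : Fin k, ∃ c : ℝ, ∀ i, ∑ a, (X i a - X (i + st n j) a) ^ 2 = c)
    (hinj : Function.Injective X) (hli : LinearIndependent ℝ (fam X h))
    (hb : ∀ l : Fin k → ZMod n → ℝ, Stress k X l →
      ∑ j : Fin k, ∑ i, l j i * (h i - h (i + st n j)) ^ 2 = 0)
    (hc : ∀ l : Fin k → ZMod n → ℝ, Stress k X l →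
      (∀ p, ∑ j : Fin k, (l j p * (h p - h (p + st n j)) +
        l j (p - st n j) * (h p - h (p - st n j))) = 0) → l = 0) :
    ∃ (Y : ZMod n → ι → ℝ) (H : ZMod n → ℝ), Function.Injective Y ∧
      LinearIndependent ℝ (fam Y H) ∧
      ∀ j : Fin k, ∃ c : ℝ, ∀ i, ∑ a, (Y i a - Y (i + st n j) a) ^ 2 +
        (H i - H (i + st n j)) ^ 2 = c := by
  classical
  obtain ⟨y0, c0, h0⟩ := exists_start X h hb
  have hrange := lin_range X h hc
  have hmap := (psi_strict (k := k) X y0 h c0).map_nhds_eq_of_surj (by
    rw [LinearMap.coe_toContinuousLinearMap]; exact hrange)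
  rw [h0] at hmap
  -- the open conditions
  set O : Set (Dom n k ι) := {w | Function.Injective (fun i a => X i a + w.2.2.2 ^ 2 * w.1 i a) ∧
    LinearIndependent ℝ (fam (fun i a => X i a + w.2.2.2 ^ 2 * w.1 i a) w.2.1)} with hO
  have hcont : Continuous (fun w : Dom n k ι => fun (i : ZMod n) (a : ι) =>
      X i a + w.2.2.2 ^ 2 * w.1 i a) := by
    fun_prop
  have hOn : O ∈ 𝓝 ((y0, h, c0, 0) : Dom n k ι) := by
    rw [hO, Set.ofPred_and]
    refine Filter.inter_mem ?_ ?_
    · have hopen : IsOpen {Y : ZMod n → ι → ℝ | Function.Injective Y} := by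
        have : {Y : ZMod n → ι → ℝ | Function.Injective Y} =
            ⋂ i : ZMod n, ⋂ j : ZMod n, {Y | i ≠ j → Y i ≠ Y j} := by
          ext Y
          simp only [Set.mem_ofPred_eq, Set.mem_iInter]
          constructor
          · intro h i j hij he; exact hij (h he)
          · intro h i j he
            by_contra hij
            exact h i j hij he
        rw [this]
        refine isOpen_iInter_of_finite fun i => isOpen_iInter_of_finite fun j => ?_
        by_cases hij : i = j
        · simp [hij]
        · simp only [ne_eq, hij, not_false_eq_true, true_implies]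
          exact isOpen_ne_fun (continuous_apply i) (continuous_apply j)
      refine (hopen.preimage hcont).mem_nhds ?_
      simp only [Set.mem_preimage, Set.mem_ofPred_eq]
      convert hinj using 1
      ext i a; simp
    · have hcont2 : Continuous (fun w : Dom n k ι =>
          fam (fun i a => X i a + w.2.2.2 ^ 2 * w.1 i a) w.2.1) := by
        refine continuous_pi fun o => ?_
        match o with
        | none => exact continuous_const
        | some none => exact continuous_fst.comp continuous_snd
        | some (some a) =>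
          refine continuous_pi fun i => ?_
          simp only [fam]
          fun_prop
      refine ((isOpen_setOfPred_linearIndependent (𝕜 := ℝ)).preimage hcont2).mem_nhds ?_
      have e : (fun (i : ZMod n) (a : ι) => X i a + (0 : ℝ) ^ 2 * y0 i a) = X := by
        ext i a; simp
      change LinearIndependent ℝ (fam (fun i a => X i a + (0 : ℝ) ^ 2 * y0 i a) h)
      rw [e]
      exact hli
  have himg : psi X '' O ∈ 𝓝 (0 : Tar n k) := by
    rw [← hmap]; exact Filter.image_mem_map hOn
  have hten : Tendsto (fun e : ℝ => ((0, e) : Tar n k)) (𝓝[≠] 0) (𝓝 0) := by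
    have : Continuous (fun e : ℝ => ((0, e) : Tar n k)) := by fun_prop
    exact (this.tendsto 0).mono_left nhdsWithin_le_nhds
  obtain ⟨e, he, he0⟩ := ((hten.eventually_mem himg).and self_mem_nhdsWithin).exists
  obtain ⟨w, ⟨hw1, hw2⟩, hw⟩ := he
  have hwe : w.2.2.2 = e := congrArg Prod.snd hw
  have he0' : e ≠ 0 := he0
  refine ⟨fun i a => X i a + w.2.2.2 ^ 2 * w.1 i a, fun i => e * w.2.1 i, hw1, ?_, ?_⟩
  · have hu := hw2.units_smul (fun o : Option (Option ι) => match o with
      | some none => Units.mk0 e he0'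
      | _ => 1)
    convert hu using 1
    ext o i
    match o with
    | none => simp [fam]
    | some none => simp [fam]
    | some (some a) => simp [fam]
  · intro j
    obtain ⟨c, hcj⟩ := base j
    refine ⟨c + e ^ 2 * w.2.2.1 j, fun i => ?_⟩
    have h1 := congrFun (congrFun (congrArg Prod.fst hw) j) i
    simp only [psi, Pi.zero_apply] at h1
    rw [hwe] at h1 ⊢
    have h2 := hcj i
    have e1 : ∑ a, (X i a + e ^ 2 * w.1 i a - (X (i + st n j) a + e ^ 2 * w.1 (i + st n j) a)) ^ 2
        = ∑ a, (X i a - X (i + st n j) a) ^ 2 +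
          e ^ 2 * ∑ a, 2 * (X i a - X (i + st n j) a) * (w.1 i a - w.1 (i + st n j) a) +
          e ^ 4 * ∑ a, (w.1 i a - w.1 (i + st n j) a) ^ 2 := by
      rw [Finset.mul_sum, Finset.mul_sum, ← Finset.sum_add_distrib, ← Finset.sum_add_distrib]
      exact Finset.sum_congr rfl fun a _ => by ring
    rw [e1, h2]
    linear_combination e ^ 2 * h1

end Pool.Agent.Zk82.KEq
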