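import Pool.Agent.Zk82.KEq.Base

set_option autoImplicit false
set_option linter.unusedSimpArgs false
set_option linter.unusedSectionVars false

/-!
# From coordinates to polygons in Euclidean space
-/

namespace Pool.Agent.Zk82.KEq

open Finset

variable {n k : ℕ} [NeZero n] {ι : Type} [Fintype ι]

/-- the coordinates of the polygon -/
def co (Y : ZMod n → ι → ℝ) (H : ZMod n → ℝ) (i : ZMod n) : Option ι → ℝ
  | none => H i
  | some a => Y i a

theorem toPolygon (d : ℕ) (hd : Fintype.card ι + 1 = d) (Y : ZMod n → ι → ℝ) (H : ZMod n → ℝ)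
    (hinj : Function.Injective Y) (hli : LinearIndependent ℝ (fam Y H))
    (hdist : ∀ j : Fin k, ∃ c : ℝ, ∀ i, ∑ a, (Y i a - Y (i + st n j) a) ^ 2 +
        (H i - H (i + st n j)) ^ 2 = c) :
    ∃ x : ZMod n → EuclideanSpace ℝ (Fin d), Function.Injective x ∧
      (∃ c : ℕ → ℝ, ∀ j : ℕ, 1 ≤ j → j ≤ k → ∀ i : ZMod n,
        dist (x i) (x (i + (j : ZMod n))) = c j) ∧
      affineSpan ℝ (Set.range x) = ⊤ := by
  classical
  have hcard : Fintype.card (Option ι) = d := by rw [Fintype.card_option, hd]
  let φ : Option ι ≃ Fin d := Fintype.equivFinOfCardEq hcard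
  let x : ZMod n → EuclideanSpace ℝ (Fin d) := fun i => WithLp.toLp 2 (fun c => co Y H i (φ.symm c))
  have hx : ∀ i c, x i c = co Y H i (φ.symm c) := fun i c => rfl
  refine ⟨x, ?_, ?_, ?_⟩
  · intro i i' h
    apply hinj
    ext a
    have := congrArg (fun v : EuclideanSpace ℝ (Fin d) => v (φ (some a))) h
    simp only [hx, Equiv.symm_apply_apply, co] at this
    exact this
  · have hd2 : ∀ i i', dist (x i) (x i') =
        √(∑ a, (Y i a - Y i' a) ^ 2 + (H i - H i') ^ 2) := by
      intro i i'
      rw [EuclideanSpace.dist_eq]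
      congr 1
      have : ∀ c, dist (x i c) (x i' c) ^ 2 =
          (co Y H i (φ.symm c) - co Y H i' (φ.symm c)) ^ 2 := by
        intro c
        rw [hx, hx, Real.dist_eq, sq_abs]
      simp_rw [this]
      rw [Equiv.sum_comp φ.symm (fun o => (co Y H i o - co Y H i' o) ^ 2), Fintype.sum_option]
      simp only [co]
      ring
    choose c hc using hdist
    refine ⟨fun j => if h : 1 ≤ j ∧ j ≤ k then √(c ⟨j - 1, by omega⟩) else 0, ?_⟩
    intro j h1 h2 i
    simp only [h1, h2, and_self, dif_pos]
    rw [hd2]
    have hst : st n (⟨j - 1, by omega⟩ : Fin k) = (j : ZMod n) := by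
      simp only [st]
      congr 1
      omega
    rw [← hst, hc]
  · have hne : (Set.range x).Nonempty := ⟨x 0, 0, rfl⟩
    rw [AffineSubspace.affineSpan_eq_top_iff_vectorSpan_eq_top_of_nonempty ℝ _ _ hne]
    by_contra hlt
    obtain ⟨f, hf0, hf⟩ := Submodule.exists_dual_map_eq_bot_of_lt_top (lt_top_iff_ne_top.2 hlt)
      inferInstance
    have hconst : ∀ i, f (x i) = f (x 0) := by
      intro i
      have h1 : x i -ᵥ x 0 ∈ vectorSpan ℝ (Set.range x) :=
        vsub_mem_vectorSpan ℝ ⟨i, rfl⟩ ⟨0, rfl⟩
      have h2 : f (x i -ᵥ x 0) ∈ (vectorSpan ℝ (Set.range x)).map f :=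
        Submodule.mem_map_of_mem h1
      rw [hf, Submodule.mem_bot, vsub_eq_sub, map_sub, sub_eq_zero] at h2
      exact h2
    have hexp : ∀ v : EuclideanSpace ℝ (Fin d),
        f v = ∑ c, v c * f (EuclideanSpace.single c 1) := by
      intro v
      have : v = ∑ c, v c • (EuclideanSpace.single c (1 : ℝ)) := by
        ext c'
        simp [Finset.sum_apply, Pi.single_apply]
      conv_lhs => rw [this]
      rw [map_sum]
      simp
    have hexp2 : ∀ i, f (x i) = ∑ o, co Y H i o * f (EuclideanSpace.single (φ o) 1) := by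
      intro i
      rw [hexp, ← Equiv.sum_comp φ]
      simp [hx]
    have hz := Fintype.linearIndependent_iff.1 hli
      (fun o : Option (Option ι) => match o with
        | none => - f (x 0)
        | some o' => f (EuclideanSpace.single (φ o') 1)) (by
        ext i
        rw [Finset.sum_apply, Fintype.sum_option]
        have := hexp2 i
        rw [hconst i] at this
        simp only [Pi.smul_apply, smul_eq_mul, Pi.zero_apply, fam, mul_one]
        rw [this]
        rw [Fintype.sum_option, Fintype.sum_option]
        simp only [co, fam]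
        have e1 : ∀ a : ι, Y i a * f (EuclideanSpace.single (φ (some a)) 1) =
          f (EuclideanSpace.single (φ (some a)) 1) * Y i a := fun a => mul_comm _ _
        simp_rw [e1]
        ring)
    apply hf0
    refine LinearMap.ext fun v => ?_
    rw [hexp]
    refine Finset.sum_eq_zero fun c _ => ?_
    have := hz (some (φ.symm c))
    simp only [Equiv.apply_symm_apply] at this
    rw [this, mul_zero]

end Pool.Agent.Zk82.KEq
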