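import Pool.Agent.Zk82.KEq.Deform

set_option autoImplicit false
set_option linter.unusedSimpArgs false
set_option linter.unusedSectionVars false

/-!
# Stresses of the polygons on trigonometric curves
-/

namespace Pool.Agent.Zk82.KEq

open Finset Polynomial

variable {n k : ℕ} [NeZero n]

/-- the standard additive character -/
noncomputable def e (a : ZMod n) : ℂ := ZMod.stdAddChar a

lemma e_add (a b : ZMod n) : e (a + b) = e a * e b := AddChar.map_add_eq_mul _ _ _

lemma e_zero : e (0 : ZMod n) = 1 := AddChar.map_zero_eq_one _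

lemma e_conj (a : ZMod n) : (starRingEnd ℂ) (e a) = e (-a) :=
  (AddChar.map_neg_eq_conj _ _).symm

lemma e_inj : Function.Injective (e (n := n)) := ZMod.injective_stdAddChar

lemma e_neg_mul (a : ZMod n) : e (-a) * e a = 1 := by
  rw [← e_add, neg_add_cancel, e_zero]

lemma e_ne_zero (a : ZMod n) : e a ≠ 0 := fun h => by
  have := e_neg_mul a
  rw [h, mul_zero] at this
  exact zero_ne_one this

lemma e_st (z : ZMod n) (j : Fin k) : e (z * st n j) = e z ^ (j.val + 1) := by
  unfold e st
  rw [← AddChar.map_nsmul_eq_pow, nsmul_eq_mul, mul_comm]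

lemma sum_e (a : ZMod n) : ∑ i : ZMod n, e (i * a) = if a = 0 then (n : ℂ) else 0 := by
  have := AddChar.sum_mulShift a (ZMod.isPrimitive_stdAddChar n)
  unfold e
  rw [this, ZMod.card]
  split_ifs <;> simp

/-- Fourier transform of a real function. -/
noncomputable def FT (u : ZMod n → ℝ) (m : ZMod n) : ℂ := ∑ p, (u p : ℂ) * e (-(m * p))

lemma FT_inj (u : ZMod n → ℝ) (h : ∀ m, FT u m = 0) : u = 0 := by
  ext q
  have h1 : ∑ m, FT u m * e (m * q) = n * (u q : ℂ) := by
    unfold FT
    simp_rw [Finset.sum_mul]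
    rw [Finset.sum_comm]
    have : ∀ p : ZMod n, ∑ m : ZMod n, (u p : ℂ) * e (-(m * p)) * e (m * q) =
        if p = q then n * (u q : ℂ) else 0 := by
      intro p
      have h2 : ∀ m : ZMod n, (u p : ℂ) * e (-(m * p)) * e (m * q) =
          (u p : ℂ) * e (m * (q - p)) := by
        intro m
        rw [mul_assoc, ← e_add]
        congr 2; ring
      simp_rw [h2, ← Finset.mul_sum, sum_e, sub_eq_zero]
      by_cases hpq : p = q
      · subst hpq; simp [mul_comm]
      · simp [hpq, Ne.symm hpq]
    simp_rw [this]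
    simp
  simp only [h, zero_mul, Finset.sum_const_zero] at h1
  have hn : (n : ℂ) ≠ 0 := Nat.cast_ne_zero.2 (NeZero.ne n)
  have := (mul_eq_zero.1 h1.symm).resolve_left hn
  exact_mod_cast this

lemma FT_conj (u : ZMod n → ℝ) (m : ZMod n) : (starRingEnd ℂ) (FT u m) = FT u (-m) := by
  unfold FT
  rw [map_sum]
  refine Finset.sum_congr rfl fun p _ => ?_
  rw [map_mul, e_conj, Complex.conj_ofReal]
  congr 2; ring

lemma FT_shift (u : ZMod n → ℝ) (s m : ZMod n) :
    ∑ p, (u (p - s) : ℂ) * e (-(m * p)) = e (-(m * s)) * FT u m := by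
  unfold FT
  rw [Finset.mul_sum]
  refine (Equiv.sum_comp (Equiv.addRight s) (fun p => (u (p - s) : ℂ) * e (-(m * p)))).symm.trans ?_
  refine Finset.sum_congr rfl fun p _ => ?_
  simp only [Equiv.coe_addRight, add_sub_cancel_right]
  rw [mul_left_comm, ← e_add]
  congr 2; ring

/-- the relation indexed by `z` between the Fourier coefficients at `m` -/
def Rel (L : Fin k → ℂ) (m z : ZMod n) : Prop :=
  ∑ j, L j * (1 + e (-(m * st n j)) - e (z * st n j) - e (-((m + z) * st n j))) = 0

lemma Rel.symm {L : Fin k → ℂ} {m z : ZMod n} (h : Rel L m z) : Rel L m (-m - z) := by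
  unfold Rel at h ⊢
  rw [← h]
  refine Finset.sum_congr rfl fun j _ => ?_
  have e1 : (-m - z) * st n j = -((m + z) * st n j) := by ring
  have e2 : -((m + (-m - z)) * st n j) = z * st n j := by ring
  rw [e1, e2]; ring

theorem coef_zero (L : Fin k → ℂ) (m : ZMod n) (Z : Finset (ZMod n)) (hZ : 2 * k < Z.card)
    (h : ∀ z ∈ Z, Rel L m z) : ∀ j, L j = 0 := by
  classical
  set R : ℂ[X] := ∑ j : Fin k, C (L j) * (C (1 + e (-(m * st n j))) * X ^ k -
    X ^ (k + (j.val + 1)) - C (e (-(m * st n j))) * X ^ (k - (j.val + 1))) with hR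
  have hdeg : R.natDegree ≤ 2 * k := by
    refine natDegree_sum_le_of_forall_le _ _ fun j _ => ?_
    have hj := j.2
    refine (natDegree_C_mul_le _ _).trans ?_
    refine (natDegree_sub_le _ _).trans (max_le ((natDegree_sub_le _ _).trans (max_le ?_ ?_)) ?_)
    · exact (natDegree_C_mul_X_pow_le _ _).trans (by omega)
    · rw [natDegree_X_pow]; omega
    · exact (natDegree_C_mul_X_pow_le _ _).trans (by omega)
  have hR0 : R = 0 := by
    refine eq_zero_of_natDegree_lt_card_of_eval_eq_zero' R (Z.image e) ?_ ?_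
    · intro w hw
      obtain ⟨z, hz, rfl⟩ := Finset.mem_image.1 hw
      have hrel := h z hz
      unfold Rel at hrel
      have : R.eval (e z) = e z ^ k * ∑ j, L j * (1 + e (-(m * st n j)) - e (z * st n j) -
          e (-((m + z) * st n j))) := by
        rw [hR, eval_finsetSum, Finset.mul_sum]
        refine Finset.sum_congr rfl fun j _ => ?_
        have hj := j.2
        simp only [eval_mul, eval_C, eval_sub, eval_pow, eval_X]
        have e1 : e (-((m + z) * st n j)) = e (-(m * st n j)) * e (-z * st n j) := by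
          rw [← e_add]; congr 1; ring
        have e2 : e z ^ k = e z ^ (k - (j.val + 1)) * e z ^ (j.val + 1) := by
          rw [← pow_add]; congr 1; omega
        have e3 : e z ^ (j.val + 1) * e (-z) ^ (j.val + 1) = 1 := by
          rw [← mul_pow, mul_comm (e z), e_neg_mul, one_pow]
        rw [e1, e_st z, e_st (-z), pow_add, e2]
        linear_combination (L j * e (-(m * st n j)) * e z ^ (k - (j.val + 1))) * e3
      rw [this, hrel, mul_zero]
    · rw [Finset.card_image_of_injective _ e_inj]
      omega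
  intro j0
  have hc : R.coeff (k + (j0.val + 1)) = -L j0 := by
    rw [hR, finsetSum_coeff]
    rw [Finset.sum_eq_single j0]
    · have hj := j0.2
      simp only [coeff_C_mul, coeff_sub, coeff_X_pow]
      rw [if_neg (by omega), if_pos trivial, if_neg (by omega)]
      ring
    · intro b _ hb
      have hb' : b.val ≠ j0.val := fun h => hb (Fin.ext h)
      simp only [coeff_C_mul, coeff_sub, coeff_X_pow]
      rw [if_neg (by omega), if_neg (by omega), if_neg (by omega)]
      ring
    · simp
  rw [hR0] at hc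
  simpa using hc.symm

variable {κ : Type} [Fintype κ]

/-- The polygon with frequencies `F`. -/
noncomputable def base (F : κ → ZMod n) : ZMod n → κ × Fin 2 → ℝ :=
  fun i a => if a.2 = 0 then (e (F a.1 * i)).re else (e (F a.1 * i)).im

lemma stress_complex (F : κ → ZMod n) {l : Fin k → ZMod n → ℝ} (hl : Stress k (base F) l)
    (f : κ) (p : ZMod n) :
    ∑ j : Fin k, ((l j p : ℂ) * (1 - e (F f * st n j)) +
      (l j (p - st n j) : ℂ) * (1 - e (-(F f * st n j)))) = 0 := by
  have h1 : ∑ j : Fin k, ((l j p : ℂ) * (e (F f * p) - e (F f * (p + st n j))) +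
      (l j (p - st n j) : ℂ) * (e (F f * p) - e (F f * (p - st n j)))) = 0 := by
    apply Complex.ext
    · have := hl.2 p (f, 0)
      simp only [base, if_true] at this
      rw [Complex.re_sum, Complex.zero_re, ← this]
      refine Finset.sum_congr rfl fun j _ => ?_
      simp [Complex.add_re, Complex.mul_re]
    · have := hl.2 p (f, 1)
      simp only [base, one_ne_zero, if_false] at this
      rw [Complex.im_sum, Complex.zero_im, ← this]
      refine Finset.sum_congr rfl fun j _ => ?_
      simp [Complex.add_im, Complex.mul_im]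
  have h2 : e (F f * p) * ∑ j : Fin k, ((l j p : ℂ) * (1 - e (F f * st n j)) +
      (l j (p - st n j) : ℂ) * (1 - e (-(F f * st n j)))) = 0 := by
    rw [Finset.mul_sum, ← h1]
    refine Finset.sum_congr rfl fun j _ => ?_
    have e1 : e (F f * (p + st n j)) = e (F f * p) * e (F f * st n j) := by
      rw [← e_add]; congr 1; ring
    have e2 : e (F f * (p - st n j)) = e (F f * p) * e (-(F f * st n j)) := by
      rw [← e_add]; congr 1; ring
    rw [e1, e2]; ring
  exact (mul_eq_zero.1 h2).resolve_left (e_ne_zero _)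

lemma rel_of_point {l : Fin k → ZMod n → ℝ} {z : ZMod n}
    (h : ∀ p, ∑ j : Fin k, ((l j p : ℂ) * (1 - e (z * st n j)) +
      (l j (p - st n j) : ℂ) * (1 - e (-(z * st n j)))) = 0) (m : ZMod n) :
    Rel (fun j => FT (l j) m) m z := by
  unfold Rel
  have h1 : ∑ p : ZMod n, (∑ j : Fin k, ((l j p : ℂ) * (1 - e (z * st n j)) +
      (l j (p - st n j) : ℂ) * (1 - e (-(z * st n j))))) * e (-(m * p)) = 0 := by
    simp [h]
  rw [← h1]
  simp_rw [Finset.sum_mul]
  rw [Finset.sum_comm]
  refine Finset.sum_congr rfl fun j _ => ?_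
  have h2 : ∀ p : ZMod n, ((l j p : ℂ) * (1 - e (z * st n j)) +
      (l j (p - st n j) : ℂ) * (1 - e (-(z * st n j)))) * e (-(m * p)) =
      (1 - e (z * st n j)) * ((l j p : ℂ) * e (-(m * p))) +
      (1 - e (-(z * st n j))) * ((l j (p - st n j) : ℂ) * e (-(m * p))) := by
    intro p; ring
  simp_rw [h2, Finset.sum_add_distrib, ← Finset.mul_sum, FT_shift]
  have e1 : e (-((m + z) * st n j)) = e (-(m * st n j)) * e (-(z * st n j)) := by
    rw [← e_add]; congr 1; ring
  rw [e1]
  change FT (l j) m * _ = (1 - e (z * st n j)) * FT (l j) m + _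
  ring

lemma rel_zero (L : Fin k → ℂ) (m : ZMod n) : Rel L m 0 := by
  unfold Rel
  refine Finset.sum_eq_zero fun j _ => ?_
  simp [e_zero]

lemma rel_pos (F : κ → ZMod n) {l : Fin k → ZMod n → ℝ} (hl : Stress k (base F) l)
    (f : κ) (m : ZMod n) : Rel (fun j => FT (l j) m) m (F f) :=
  rel_of_point (stress_complex F hl f) m

lemma rel_neg (F : κ → ZMod n) {l : Fin k → ZMod n → ℝ} (hl : Stress k (base F) l)
    (f : κ) (m : ZMod n) : Rel (fun j => FT (l j) m) m (-F f) := by
  refine rel_of_point (fun p => ?_) m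
  have := congrArg (starRingEnd ℂ) (stress_complex F hl f p)
  rw [map_sum, map_zero] at this
  rw [← this]
  refine Finset.sum_congr rfl fun j _ => ?_
  simp only [map_add, map_mul, map_sub, map_one, Complex.conj_ofReal, e_conj, neg_neg, neg_mul]

end Pool.Agent.Zk82.KEq
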