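import Pool.Agent.Zk82.KEq.Cases

set_option autoImplicit false
set_option linter.unusedSimpArgs false
set_option linter.unusedSectionVars false

/-!
# The case `k = 2`
-/

namespace Pool.Agent.Zk82.KEq

open Finset

variable {n k : ℕ} [NeZero n]

lemma hgt_complex (m₀ i : ZMod n) : ((hgt m₀ i : ℝ) : ℂ) = (e (m₀ * i) + e (-(m₀ * i))) / 2 :=
  re_e _

lemma FT_mul (u : ZMod n → ℝ) (a μ : ZMod n) :
    ∑ p, (u p : ℂ) * e (-(μ * p)) * e (a * p) = FT u (μ - a) := by
  unfold FT
  refine Finset.sum_congr rfl fun p _ => ?_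
  rw [mul_assoc, ← e_add]
  congr 2; ring

/-- the height differences -/
lemma hgt_diff (m₀ s p : ZMod n) : ((hgt m₀ p - hgt m₀ (p + s) : ℝ) : ℂ) =
    ((1 - e (m₀ * s)) * e (m₀ * p) + (1 - e (-(m₀ * s))) * e (-m₀ * p)) / 2 := by
  rw [Complex.ofReal_sub, hgt_complex, hgt_complex]
  have e1 : e (m₀ * (p + s)) = e (m₀ * p) * e (m₀ * s) := by rw [← e_add]; congr 1; ring
  have e2 : e (-(m₀ * (p + s))) = e (-m₀ * p) * e (-(m₀ * s)) := by rw [← e_add]; congr 1; ring
  have e3 : e (-(m₀ * p)) = e (-m₀ * p) := by congr 1; ring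
  rw [e1, e2, e3]; ring

lemma W_eq (u : ZMod n → ℝ) (m₀ s μ : ZMod n) :
    ∑ p, (u p : ℂ) * e (-(μ * p)) * ((hgt m₀ p - hgt m₀ (p + s) : ℝ) : ℂ) =
      ((1 - e (m₀ * s)) * FT u (μ - m₀) + (1 - e (-(m₀ * s))) * FT u (μ + m₀)) / 2 := by
  have h2 : FT u (μ + m₀) = FT u (μ - (-m₀)) := by rw [sub_neg_eq_add]
  rw [h2, ← FT_mul, ← FT_mul, Finset.mul_sum, Finset.mul_sum, ← Finset.sum_add_distrib,
    Finset.sum_div]
  refine Finset.sum_congr rfl fun p _ => ?_
  rw [hgt_diff]; ring

theorem height_rel {l : Fin k → ZMod n → ℝ} {m₀ : ZMod n}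
    (h : ∀ p, ∑ j : Fin k, (l j p * (hgt m₀ p - hgt m₀ (p + st n j)) +
        l j (p - st n j) * (hgt m₀ p - hgt m₀ (p - st n j))) = 0) (μ : ZMod n) :
    ∑ j : Fin k, (1 - e (-(μ * st n j))) * (((1 - e (m₀ * st n j)) * FT (l j) (μ - m₀) +
      (1 - e (-(m₀ * st n j))) * FT (l j) (μ + m₀)) / 2) = 0 := by
  have h1 : ∑ p : ZMod n, ((∑ j : Fin k, (l j p * (hgt m₀ p - hgt m₀ (p + st n j)) +
        l j (p - st n j) * (hgt m₀ p - hgt m₀ (p - st n j))) : ℝ) : ℂ) * e (-(μ * p)) = 0 := by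
    simp only [h, Complex.ofReal_zero, zero_mul, Finset.sum_const_zero]
  refine Eq.trans ?_ h1
  have h2 : ∀ p : ZMod n, ((∑ j : Fin k, (l j p * (hgt m₀ p - hgt m₀ (p + st n j)) +
        l j (p - st n j) * (hgt m₀ p - hgt m₀ (p - st n j))) : ℝ) : ℂ) * e (-(μ * p)) =
      ∑ j : Fin k, ((l j p : ℂ) * e (-(μ * p)) * ((hgt m₀ p - hgt m₀ (p + st n j) : ℝ) : ℂ) +
        (l j (p - st n j) : ℂ) * e (-(μ * p)) *
          ((hgt m₀ p - hgt m₀ (p - st n j) : ℝ) : ℂ)) := by
    intro p
    rw [Complex.ofReal_sum, Finset.sum_mul]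
    refine Finset.sum_congr rfl fun j _ => ?_
    push_cast; ring
  simp_rw [h2]
  rw [Finset.sum_comm]
  refine Finset.sum_congr rfl fun j _ => ?_
  rw [Finset.sum_add_distrib, W_eq]
  have h3 : ∑ p : ZMod n, (l j (p - st n j) : ℂ) * e (-(μ * p)) *
          ((hgt m₀ p - hgt m₀ (p - st n j) : ℝ) : ℂ) =
      -e (-(μ * st n j)) * ∑ p : ZMod n, (l j p : ℂ) * e (-(μ * p)) *
          ((hgt m₀ p - hgt m₀ (p + st n j) : ℝ) : ℂ) := by
    rw [Finset.mul_sum]
    refine (Equiv.sum_comp (Equiv.addRight (st n j)) (fun p => (l j (p - st n j) : ℂ) *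
      e (-(μ * p)) * ((hgt m₀ p - hgt m₀ (p - st n j) : ℝ) : ℂ))).symm.trans ?_
    refine Finset.sum_congr rfl fun p _ => ?_
    simp only [Equiv.coe_addRight, add_sub_cancel_right]
    have e1 : e (-(μ * (p + st n j))) = e (-(μ * p)) * e (-(μ * st n j)) := by
      rw [← e_add]; congr 1; ring
    rw [e1]
    push_cast; ring
  rw [h3, W_eq]
  ring

theorem sq_sum (u : ZMod n → ℝ) (m₀ s : ZMod n) (h0 : FT u 0 = 0) (h1 : FT u (m₀ + m₀) = 0)
    (h2 : FT u (-(m₀ + m₀)) = 0) : ∑ i, u i * (hgt m₀ i - hgt m₀ (i + s)) ^ 2 = 0 := by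
  have key : ((∑ i, u i * (hgt m₀ i - hgt m₀ (i + s)) ^ 2 : ℝ) : ℂ) =
      ((1 - e (m₀ * s)) ^ 2 * FT u (0 - (m₀ + m₀)) +
        (1 - e (-(m₀ * s))) ^ 2 * FT u (0 - (-m₀ + -m₀)) +
        2 * (1 - e (m₀ * s)) * (1 - e (-(m₀ * s))) * FT u (0 - 0)) / 4 := by
    rw [← FT_mul, ← FT_mul, ← FT_mul, Finset.mul_sum, Finset.mul_sum, Finset.mul_sum,
      ← Finset.sum_add_distrib, ← Finset.sum_add_distrib, Finset.sum_div, Complex.ofReal_sum]
    refine Finset.sum_congr rfl fun p _ => ?_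
    rw [Complex.ofReal_mul, Complex.ofReal_pow, hgt_diff]
    have e0 : e (-((0 : ZMod n) * p)) = 1 := by rw [zero_mul, neg_zero, e_zero]
    have e0' : e ((0 : ZMod n) * p) = 1 := by rw [zero_mul, e_zero]
    have e1 : e ((m₀ + m₀) * p) = e (m₀ * p) * e (m₀ * p) := by rw [← e_add]; congr 1; ring
    have e2 : e ((-m₀ + -m₀) * p) = e (-m₀ * p) * e (-m₀ * p) := by rw [← e_add]; congr 1; ring
    have e3 : e (m₀ * p) * e (-m₀ * p) = 1 := by
      rw [← e_add, ← e_zero (n := n)]; congr 1; ring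
    rw [e0, e0', e1, e2]
    linear_combination ((u p : ℂ) * (1 - e (m₀ * s)) * (1 - e (-(m₀ * s))) / 2) * e3
  have e4 : (0 : ZMod n) - (m₀ + m₀) = -(m₀ + m₀) := by ring
  have e5 : (0 : ZMod n) - (-m₀ + -m₀) = m₀ + m₀ := by ring
  rw [e4, e5, sub_zero, h0, h1, h2] at key
  simp only [mul_zero, add_zero, zero_div] at key
  exact_mod_cast key

/-- The frequency `1`. -/
def F2 (n : ℕ) : Fin (2 - 1) → ZMod n := fun _ => 1

lemma rel2 {l : Fin 2 → ZMod n → ℝ} (hl : Stress 2 (base (F2 n)) l) (m : ZMod n) :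
    ∀ t ∈ ({-1, 0, 1} : Finset ℤ), Rel (fun j => FT (l j) m) m (t : ZMod n) := by
  intro t ht
  simp only [Finset.mem_insert, Finset.mem_singleton] at ht
  rcases ht with rfl | rfl | rfl
  · have := rel_neg (F2 n) hl 0 m
    simpa [F2] using this
  · rw [Int.cast_zero]; exact rel_zero _ _
  · have := rel_pos (F2 n) hl 0 m
    simpa [F2] using this

lemma FT_two {l : Fin 2 → ZMod n → ℝ} (hn : 7 ≤ n) (hl : Stress 2 (base (F2 n)) l) (m : ZMod n)
    (h0 : m ≠ 0) (h1 : m ≠ 1) (h2 : m ≠ -1) (j : Fin 2) : FT (l j) m = 0 := by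
  have hb := ZMod.valMinAbs_mem_Ioc m
  rw [Set.mem_Ioc] at hb
  have hM : (m.valMinAbs : ZMod n) = m := ZMod.coe_valMinAbs m
  have hM0 : m.valMinAbs ≠ 0 := fun h => h0 (by rw [← hM, h, Int.cast_zero])
  have hM1 : m.valMinAbs ≠ 1 := fun h => h1 (by rw [← hM, h, Int.cast_one])
  have hM2 : m.valMinAbs ≠ -1 := fun h => h2 (by rw [← hM, h]; simp)
  rcases lt_or_gt_of_ne hM0 with h | h
  · refine coef_zero_int {-1, 0, 1} ?_ (by decide) (by omega) (fun j => FT (l j) m) m m.valMinAbs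
      hM (rel2 hl m) 0 (-1) (by decide) (by decide) (by decide) ?_ ?_ j
    · intro t ht
      simp only [Finset.mem_insert, Finset.mem_singleton] at ht
      omega
    · intro t ht hd
      simp only [Finset.mem_insert, Finset.mem_singleton] at ht
      rcases dvd_cases (by omega) hd (by omega) (by omega) with h | h | h <;> omega
    · intro t ht hd
      simp only [Finset.mem_insert, Finset.mem_singleton] at ht
      rcases dvd_cases (by omega) hd (by omega) (by omega) with h | h | h <;> omega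
  · refine coef_zero_int {-1, 0, 1} ?_ (by decide) (by omega) (fun j => FT (l j) m) m m.valMinAbs
      hM (rel2 hl m) 0 1 (by decide) (by decide) (by decide) ?_ ?_ j
    · intro t ht
      simp only [Finset.mem_insert, Finset.mem_singleton] at ht
      omega
    · intro t ht hd
      simp only [Finset.mem_insert, Finset.mem_singleton] at ht
      rcases dvd_cases (by omega) hd (by omega) (by omega) with h | h | h <;> omega
    · intro t ht hd
      simp only [Finset.mem_insert, Finset.mem_singleton] at ht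
      rcases dvd_cases (by omega) hd (by omega) (by omega) with h | h | h <;> omega

/-- an integer of small absolute value is nonzero modulo `n` -/
lemma cast_ne_zero' (a : ℤ) (h : ¬ (n : ℤ) ∣ a) : ((a : ℤ) : ZMod n) ≠ 0 := by
  rwa [Ne, ZMod.intCast_zmod_eq_zero_iff_dvd]

lemma not_dvd_small {a : ℤ} (h0 : a ≠ 0) (h1 : a < n) (h2 : -(n : ℤ) < a) : ¬ (n : ℤ) ∣ a := by
  intro hd
  rcases dvd_cases (by omega) hd (by omega) (by omega) with h | h | h <;> omega

theorem hb_two (hn : 7 ≤ n) (l : Fin 2 → ZMod n → ℝ) (hl : Stress 2 (base (F2 n)) l) :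
    ∑ j : Fin 2, ∑ i, l j i * (hgt (2 : ZMod n) i - hgt 2 (i + st n j)) ^ 2 = 0 := by
  refine Finset.sum_eq_zero fun j _ => ?_
  have q1 : (((2 : ZMod n) + 2)) ≠ 0 := by
    have := cast_ne_zero' (n := n) 4 (not_dvd_small (by norm_num) (by omega) (by omega))
    push_cast at this; convert this using 1; norm_num
  have q2 : (((2 : ZMod n) + 2)) ≠ 1 := by
    have := cast_ne_zero' (n := n) 3 (not_dvd_small (by norm_num) (by omega) (by omega))
    push_cast at this
    intro h; apply this; linear_combination h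
  have q3 : (((2 : ZMod n) + 2)) ≠ -1 := by
    have := cast_ne_zero' (n := n) 5 (not_dvd_small (by norm_num) (by omega) (by omega))
    push_cast at this
    intro h; apply this; linear_combination h
  refine sq_sum (l j) 2 (st n j) (FT_zero hl j) (FT_two hn hl _ q1 q2 q3 j)
    (FT_two hn hl _ (neg_ne_zero.2 q1) (fun h => q3 ?_) (fun h => q2 ?_) j)
  · rw [← h, neg_neg]
  · exact neg_injective h

theorem hc_two (hn : 7 ≤ n) (l : Fin 2 → ZMod n → ℝ) (hl : Stress 2 (base (F2 n)) l)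
    (h : ∀ p, ∑ j : Fin 2, (l j p * (hgt (2 : ZMod n) p - hgt 2 (p + st n j)) +
        l j (p - st n j) * (hgt (2 : ZMod n) p - hgt 2 (p - st n j))) = 0) : l = 0 := by
  have hsm : ∀ a : ℤ, a ≠ 0 → a < 7 → -7 < a → ((a : ℤ) : ZMod n) ≠ 0 := fun a h1 h2 h3 =>
    cast_ne_zero' a (not_dvd_small h1 (by omega) (by omega))
  have h5 : ∀ j, FT (l j) 5 = 0 := by
    intro j
    refine FT_two hn hl 5 ?_ ?_ ?_ j
    · have := hsm 5 (by norm_num) (by norm_num) (by norm_num)
      push_cast at this; exact this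
    · have := hsm 4 (by norm_num) (by norm_num) (by norm_num)
      push_cast at this
      intro h; apply this; linear_combination h
    · have := hsm 6 (by norm_num) (by norm_num) (by norm_num)
      push_cast at this
      intro h; apply this; linear_combination h
  have hrel := height_rel h 3
  have hR2 : Rel (fun j => FT (l j) 1) (1 : ZMod n) 2 := by
    unfold Rel
    have h2 : ∑ j : Fin 2, (1 - e (-((3 : ZMod n) * st n j))) *
        (((1 - e ((2 : ZMod n) * st n j)) * FT (l j) (3 - 2) +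
        (1 - e (-((2 : ZMod n) * st n j))) * FT (l j) (3 + 2)) / 2) =
        (∑ j : Fin 2, FT (l j) 1 * (1 + e (-((1 : ZMod n) * st n j)) -
          e ((2 : ZMod n) * st n j) - e (-((1 + 2 : ZMod n) * st n j)))) / 2 := by
      rw [Finset.sum_div]
      refine Finset.sum_congr rfl fun j _ => ?_
      have a1 : (3 : ZMod n) + 2 = 5 := by norm_num
      have a2 : (3 : ZMod n) - 2 = 1 := by norm_num
      have a3 : (1 : ZMod n) + 2 = 3 := by norm_num
      rw [a1, a2, a3, h5]
      have e1 : e (-((1 : ZMod n) * st n j)) = e (-((3 : ZMod n) * st n j)) *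
          e ((2 : ZMod n) * st n j) := by
        rw [← e_add]; congr 1; ring
      rw [e1]; ring
    rw [h2] at hrel
    linear_combination 2 * hrel
  have h1 : ∀ j, FT (l j) 1 = 0 := by
    classical
    refine coef_zero (fun j => FT (l j) 1) 1
      (({-3, -2, -1, 0, 1, 2} : Finset ℤ).image (fun t : ℤ => (t : ZMod n))) ?_ ?_
    · rw [Finset.card_image_of_injOn]
      · decide
      · intro a ha b hb' he
        by_contra hne
        simp only [Finset.coe_insert, Finset.coe_singleton, Set.mem_insert_iff,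
          Set.mem_singleton_iff] at ha hb'
        refine cast_ne (n := n) (not_dvd_small ?_ ?_ ?_) he <;> omega
    · intro z hz
      obtain ⟨t, ht, rfl⟩ := Finset.mem_image.1 hz
      simp only [Finset.mem_insert, Finset.mem_singleton] at ht
      rcases ht with rfl | rfl | rfl | rfl | rfl | rfl
      · have := hR2.symm
        convert this using 1; push_cast; ring
      · have := (rel2 hl 1 1 (by decide)).symm
        convert this using 1; push_cast; ring
      · exact rel2 hl 1 (-1) (by decide)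
      · exact rel2 hl 1 0 (by decide)
      · exact rel2 hl 1 1 (by decide)
      · exact_mod_cast hR2
  funext j
  apply FT_inj
  intro m
  by_cases hm0 : m = 0
  · rw [hm0]; exact FT_zero hl j
  by_cases hm1 : m = 1
  · rw [hm1]; exact h1 j
  by_cases hm2 : m = -1
  · rw [hm2, ← FT_conj, h1 j, map_zero]
  exact FT_two hn hl m hm0 hm1 hm2 j

end Pool.Agent.Zk82.KEq
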